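import Pool.Agent.Run7.h554.Tv.Ex

/-!
# The convex hull of the Tverberg points can be smaller than the core (MP_8fed12_co)

For every `d ≥ 3` there is a set `S` of exactly `(3 - 1)(d + 1) + 1` points of `ℝ^d` such that the
convex hull of `D_3(S)` is a proper subset of `core_2(S)`.
-/

set_option autoImplicit false

namespace Pool.Agent.Results.MP_8fed12_co.ConvexHullOfTverbergPoints

open Run7.h554.Tv

theorem result (d : ℕ) (hd : 3 ≤ d) :
    ∃ S : Finset (Fin d → ℝ), S.card = (3 - 1) * (d + 1) + 1 ∧
      convexHull ℝ (tverbergPoints 3 S) ⊂ core (3 - 1) S :=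
  bad_of_le 3 (by norm_num) 3 bad_three d hd

end Pool.Agent.Results.MP_8fed12_co.ConvexHullOfTverbergPoints
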